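import Pool.Agent.H581R2.SplayRun

set_option autoImplicit false

/-! The nodes of a splay tree whose subtree contains one of the last requested keys. -/

namespace Pool.Agent.TH22.SP

open Pool.Agent.H581R2.Splay Tr

/-- the subtree contains a key of `E` -/
def Meets (E : Finset ℕ) (t : Tr) : Prop := ∃ k ∈ keys t, k ∈ E

/-- the number of nodes of `t` whose subtree contains a key of `E` -/
noncomputable def ancs (E : Finset ℕ) : Tr → ℕ
  | nil => 0
  | node a l r => (open Classical in if Meets E (node a l r) then 1 else 0) + ancs E l + ancs E r

theorem meets_nil (E : Finset ℕ) : ¬ Meets E nil := by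
  rintro ⟨k, hk, _⟩
  simp [keys] at hk

theorem meets_node (E : Finset ℕ) (a : ℕ) (l r : Tr) :
    Meets E (node a l r) ↔ a ∈ E ∨ Meets E l ∨ Meets E r := by
  constructor
  · rintro ⟨k, hk, hE⟩
    simp only [keys, List.mem_append, List.mem_cons] at hk
    rcases hk with hk | hk | hk
    · exact Or.inr (Or.inl ⟨k, hk, hE⟩)
    · left; rw [← hk]; exact hE
    · exact Or.inr (Or.inr ⟨k, hk, hE⟩)
  · rintro (h | ⟨k, hk, hE⟩ | ⟨k, hk, hE⟩)
    · exact ⟨a, by simp [keys], h⟩
    · exact ⟨k, by simp [keys, hk], hE⟩
    · exact ⟨k, by simp [keys, hk], hE⟩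

theorem ancs_of_meets {E : Finset ℕ} {a : ℕ} {l r : Tr} (h : Meets E (node a l r)) :
    ancs E (node a l r) = 1 + ancs E l + ancs E r := by
  simp [ancs, h]

theorem ancs_le (E : Finset ℕ) (a : ℕ) (l r : Tr) :
    ancs E (node a l r) ≤ 1 + ancs E l + ancs E r := by
  simp only [ancs]
  split_ifs <;> omega

theorem le_ancs (E : Finset ℕ) (a : ℕ) (l r : Tr) :
    ancs E l + ancs E r ≤ ancs E (node a l r) := by
  simp only [ancs]
  split_ifs <;> omega

theorem ancs_not_meets {E : Finset ℕ} : ∀ {t : Tr}, ¬ Meets E t → ancs E t = 0 := by
  intro t
  induction t with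
  | nil => intro _; rfl
  | node a l r ihl ihr =>
    intro h
    have h' := h
    rw [meets_node] at h'
    push Not at h'
    simp only [ancs, h, if_false, ihl h'.2.1, ihr h'.2.2]

/-- same keys: same answer -/
theorem meets_congr {E : Finset ℕ} {t t' : Tr} (h : keys t = keys t') :
    Meets E t ↔ Meets E t' := by
  unfold Meets
  rw [h]

theorem ancs_plug_le {E : Finset ℕ} {c : ℕ} : ∀ (fs : List Fr) (t t' : Tr),
    keys t = keys t' → ancs E t ≤ ancs E t' + c → ancs E (plug fs t) ≤ ancs E (plug fs t') + c := by
  intro fs
  induction fs with
  | nil => intro t t' _ h; simpa [plug] using h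
  | cons f fs ih =>
    intro t t' hk h
    simp only [plug]
    refine ih _ _ ?_ ?_
    · cases f <;> simp [plug1, keys, hk]
    · cases f with
      | inL a s =>
        have hm : Meets E (node a t s) ↔ Meets E (node a t' s) := by
          rw [meets_node, meets_node, meets_congr hk]
        simp only [plug1, ancs]
        by_cases hh : Meets E (node a t s)
        · rw [if_pos hh, if_pos (hm.1 hh)]; omega
        · rw [if_neg hh, if_neg (fun q => hh (hm.2 q))]; omega
      | inR a s =>
        have hm : Meets E (node a s t) ↔ Meets E (node a s t') := by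
          rw [meets_node, meets_node, meets_congr hk]
        simp only [plug1, ancs]
        by_cases hh : Meets E (node a s t)
        · rw [if_pos hh, if_pos (hm.1 hh)]; omega
        · rw [if_neg hh, if_neg (fun q => hh (hm.2 q))]; omega

theorem meets_mono {E : Finset ℕ} {t t' : Tr} (h : ∀ k ∈ keys t, k ∈ keys t') (hm : Meets E t) :
    Meets E t' := by
  obtain ⟨k, hk, hE⟩ := hm
  exact ⟨k, h k hk, hE⟩

/-- the step of the induction -/
theorem clos_step {E : Finset ℕ} {told tnew t0 : Tr} {fs : List Fr} {R n : ℕ} (p : ℕ)
    (hk : keys tnew = keys told) (hnew : ancs E tnew ≤ p + R)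
    (hold : Meets E told → p + R ≤ ancs E told + 2)
    (hfull : Meets E t0 → p + R ≤ ancs E told)
    (hsub : ∀ k ∈ keys t0, k ∈ keys told)
    (ih1 : Meets E tnew → n ≤ ancs E (plug fs tnew))
    (ih2 : ¬ Meets E tnew → n ≤ ancs E (plug fs tnew) + 2) :
    (Meets E t0 → n ≤ ancs E (plug fs told)) ∧
    (¬ Meets E t0 → n ≤ ancs E (plug fs told) + 2) := by
  constructor
  · intro h
    have h1 : Meets E told := meets_mono hsub h
    have h2 : Meets E tnew := (meets_congr hk).2 h1
    have h3 := ancs_plug_le (E := E) (c := 0) fs tnew told hk (by have := hfull h; omega)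
    have := ih1 h2
    omega
  · intro _
    by_cases h2 : Meets E tnew
    · have h1 : Meets E told := (meets_congr hk).1 h2
      have h3 := ancs_plug_le (E := E) (c := 2) fs tnew told hk (by have := hold h1; omega)
      have := ih1 h2
      omega
    · have h1 : ¬ Meets E told := fun q => h2 ((meets_congr hk).2 q)
      have h3 := ancs_plug_le (E := E) (c := 0) fs tnew told hk
        (by rw [ancs_not_meets h1, ancs_not_meets h2])
      have := ih2 h2
      omega

theorem full2 {E : Finset ℕ} {x y : ℕ} {l r c : Tr} (h : Meets E (node x l r)) :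
    2 + (ancs E l + ancs E r + ancs E c) ≤ ancs E (node y (node x l r) c) ∧
    2 + (ancs E l + ancs E r + ancs E c) ≤ ancs E (node y c (node x l r)) := by
  have h1 : Meets E (node y (node x l r) c) := (meets_node _ _ _ _).2 (Or.inr (Or.inl h))
  have h2 : Meets E (node y c (node x l r)) := (meets_node _ _ _ _).2 (Or.inr (Or.inr h))
  rw [ancs_of_meets h1, ancs_of_meets h2, ancs_of_meets h]
  omega

theorem climb_clos (E : Finset ℕ) (x : ℕ) : ∀ (fs : List Fr) (l r : Tr),
    (Meets E (node x l r) → ancs E (climb x fs l r) ≤ ancs E (plug fs (node x l r))) ∧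
    (¬ Meets E (node x l r) → ancs E (climb x fs l r) ≤ ancs E (plug fs (node x l r)) + 2) := by
  intro fs
  induction hn : fs.length using Nat.strong_induction_on generalizing fs with
  | _ n ih =>
    intro l r
    match fs, hn with
    | [], hn => exact ⟨fun _ => le_refl _, fun _ => Nat.le_add_right _ _⟩
    | [Fr.inL y c], hn =>
      refine clos_step (told := node y (node x l r) c) (tnew := node x l (node y r c)) (t0 := node x l r) (fs := [])
        (R := ancs E l + ancs E r + ancs E c) 2
        (by simp [keys]) ?_ ?_ (fun h => (full2 h).1) ?_ (fun _ => le_refl _)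
        (fun _ => Nat.le_add_right _ _)
      · have h1 := ancs_le E x l (node y r c)
        have h2 := ancs_le E y r c
        omega
      · intro _
        have h1 := le_ancs E y (node x l r) c
        have h2 := le_ancs E x l r
        omega
      · intro k hk
        simp only [keys, List.mem_append, List.mem_cons] at hk ⊢
        tauto
    | [Fr.inR y c], hn =>
      refine clos_step (told := node y c (node x l r)) (tnew := node x (node y c l) r) (t0 := node x l r) (fs := [])
        (R := ancs E l + ancs E r + ancs E c) 2
        (by simp [keys]) ?_ ?_ (fun h => (full2 h).2) ?_ (fun _ => le_refl _)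
        (fun _ => Nat.le_add_right _ _)
      · have h1 := ancs_le E x (node y c l) r
        have h2 := ancs_le E y c l
        omega
      · intro _
        have h1 := le_ancs E y c (node x l r)
        have h2 := le_ancs E x l r
        omega
      · intro k hk
        simp only [keys, List.mem_append, List.mem_cons] at hk ⊢
        tauto
    | Fr.inL y c :: Fr.inL z d :: fs, hn =>
      simp only [List.length_cons] at hn
      have hi := ih fs.length (by omega) fs rfl l (node y r (node z c d))
      refine clos_step (told := node z (node y (node x l r) c) d) (tnew := node x l (node y r (node z c d))) (t0 := node x l r) (fs := fs)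
        (R := ancs E l + ancs E r + ancs E c + ancs E d) 3
        (by simp [keys]) ?_ ?_ ?_ ?_ (fun h => hi.1 h) (fun h => hi.2 h)
      · 
        have b0 := ancs_le E x l (node y r (node z c d))
        have b1 := ancs_le E y r (node z c d)
        have b2 := ancs_le E z c d
        omega
      · intro h
        rw [ancs_of_meets h]
        have h1 := le_ancs E y (node x l r) c
        have h2 := le_ancs E x l r
        omega
      · intro h
        have h1 : Meets E (node y (node x l r) c) := (meets_node _ _ _ _).2 (Or.inr (Or.inl h))
        have h2 : Meets E (node z (node y (node x l r) c) d) := (meets_node _ _ _ _).2 (Or.inr (Or.inl h1))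
        have h3 := (full2 (E := E) (y := y) (c := c) h).1
        rw [ancs_of_meets h2]
        omega
      · intro k hk
        simp only [keys, List.mem_append, List.mem_cons] at hk ⊢
        tauto
    | Fr.inR y c :: Fr.inR z d :: fs, hn =>
      simp only [List.length_cons] at hn
      have hi := ih fs.length (by omega) fs rfl (node y (node z d c) l) r
      refine clos_step (told := node z d (node y c (node x l r))) (tnew := node x (node y (node z d c) l) r) (t0 := node x l r) (fs := fs)
        (R := ancs E l + ancs E r + ancs E c + ancs E d) 3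
        (by simp [keys]) ?_ ?_ ?_ ?_ (fun h => hi.1 h) (fun h => hi.2 h)
      · 
        have b0 := ancs_le E x (node y (node z d c) l) r
        have b1 := ancs_le E y (node z d c) l
        have b2 := ancs_le E z d c
        omega
      · intro h
        rw [ancs_of_meets h]
        have h1 := le_ancs E y c (node x l r)
        have h2 := le_ancs E x l r
        omega
      · intro h
        have h1 : Meets E (node y c (node x l r)) := (meets_node _ _ _ _).2 (Or.inr (Or.inr h))
        have h2 : Meets E (node z d (node y c (node x l r))) := (meets_node _ _ _ _).2 (Or.inr (Or.inr h1))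
        have h3 := (full2 (E := E) (y := y) (c := c) h).2
        rw [ancs_of_meets h2]
        omega
      · intro k hk
        simp only [keys, List.mem_append, List.mem_cons] at hk ⊢
        tauto
    | Fr.inL y c :: Fr.inR z d :: fs, hn =>
      simp only [List.length_cons] at hn
      have hi := ih fs.length (by omega) fs rfl (node z d l) (node y r c)
      refine clos_step (told := node z d (node y (node x l r) c)) (tnew := node x (node z d l) (node y r c)) (t0 := node x l r) (fs := fs)
        (R := ancs E l + ancs E r + ancs E c + ancs E d) 3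
        (by simp [keys]) ?_ ?_ ?_ ?_ (fun h => hi.1 h) (fun h => hi.2 h)
      · 
        have b0 := ancs_le E x (node z d l) (node y r c)
        have b1 := ancs_le E z d l
        have b2 := ancs_le E y r c
        omega
      · intro h
        rw [ancs_of_meets h]
        have h1 := le_ancs E y (node x l r) c
        have h2 := le_ancs E x l r
        omega
      · intro h
        have h1 : Meets E (node y (node x l r) c) := (meets_node _ _ _ _).2 (Or.inr (Or.inl h))
        have h2 : Meets E (node z d (node y (node x l r) c)) := (meets_node _ _ _ _).2 (Or.inr (Or.inr h1))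
        have h3 := (full2 (E := E) (y := y) (c := c) h).1
        rw [ancs_of_meets h2]
        omega
      · intro k hk
        simp only [keys, List.mem_append, List.mem_cons] at hk ⊢
        tauto
    | Fr.inR y c :: Fr.inL z d :: fs, hn =>
      simp only [List.length_cons] at hn
      have hi := ih fs.length (by omega) fs rfl (node y c l) (node z r d)
      refine clos_step (told := node z (node y c (node x l r)) d) (tnew := node x (node y c l) (node z r d)) (t0 := node x l r) (fs := fs)
        (R := ancs E l + ancs E r + ancs E c + ancs E d) 3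
        (by simp [keys]) ?_ ?_ ?_ ?_ (fun h => hi.1 h) (fun h => hi.2 h)
      · 
        have b0 := ancs_le E x (node y c l) (node z r d)
        have b1 := ancs_le E y c l
        have b2 := ancs_le E z r d
        omega
      · intro h
        rw [ancs_of_meets h]
        have h1 := le_ancs E y c (node x l r)
        have h2 := le_ancs E x l r
        omega
      · intro h
        have h1 : Meets E (node y c (node x l r)) := (meets_node _ _ _ _).2 (Or.inr (Or.inr h))
        have h2 : Meets E (node z (node y c (node x l r)) d) := (meets_node _ _ _ _).2 (Or.inr (Or.inl h1))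
        have h3 := (full2 (E := E) (y := y) (c := c) h).2
        rw [ancs_of_meets h2]
        omega
      · intro k hk
        simp only [keys, List.mem_append, List.mem_cons] at hk ⊢
        tauto

/-- splaying a key of `E` does not increase the number of ancestors of `E` -/
theorem splay_clos_mem {E : Finset ℕ} {x : ℕ} {t : Tr} (hb : IsBST t) (hx : x ∈ keys t)
    (hE : x ∈ E) : ancs E (splay x t) ≤ ancs E t := by
  obtain ⟨h1, _⟩ := locate_spec x t [] hb hx
  have h1' : plug (locate x t []).1 (node x (locate x t []).2.1 (locate x t []).2.2) = t := h1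
  have h2 := (climb_clos E x (locate x t []).1 (locate x t []).2.1 (locate x t []).2.2).1
    ((meets_node _ _ _ _).2 (Or.inl hE))
  rw [h1'] at h2
  exact h2

theorem splay_clos {E : Finset ℕ} {x : ℕ} {t : Tr} (hb : IsBST t) (hx : x ∈ keys t) :
    ancs E (splay x t) ≤ ancs E t + 2 := by
  obtain ⟨h1, _⟩ := locate_spec x t [] hb hx
  have h1' : plug (locate x t []).1 (node x (locate x t []).2.1 (locate x t []).2.2) = t := h1
  have h2 := climb_clos E x (locate x t []).1 (locate x t []).2.1 (locate x t []).2.2
  rw [h1'] at h2
  by_cases h : Meets E (node x (locate x t []).2.1 (locate x t []).2.2)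
  · have := h2.1 h
    unfold splay
    omega
  · exact h2.2 h

theorem ancs_congr {E F : Finset ℕ} : ∀ {t : Tr}, (∀ k ∈ keys t, (k ∈ E ↔ k ∈ F)) →
    ancs E t = ancs F t := by
  intro t
  induction t with
  | nil => intro _; rfl
  | node a l r ihl ihr =>
    intro h
    have hl := ihl (fun k hk => h k (by simp [keys, hk]))
    have hr := ihr (fun k hk => h k (by simp [keys, hk]))
    have hm : Meets E (node a l r) ↔ Meets F (node a l r) := by
      constructor
      · rintro ⟨k, hk, hE⟩; exact ⟨k, hk, (h k hk).1 hE⟩
      · rintro ⟨k, hk, hE⟩; exact ⟨k, hk, (h k hk).2 hE⟩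
    simp only [ancs]
    rw [hl, hr]
    by_cases hh : Meets E (node a l r)
    · rw [if_pos hh, if_pos (hm.1 hh)]
    · rw [if_neg hh, if_neg (fun q => hh (hm.2 q))]

theorem bst_splay {x : ℕ} {t : Tr} (hb : IsBST t) (hx : x ∈ keys t) : IsBST (splay x t) := by
  unfold IsBST
  rw [splay_keys hb hx]
  exact hb

/-- adding the splayed key to `E` -/
theorem splay_clos_insert {E : Finset ℕ} {x : ℕ} {t : Tr} (hb : IsBST t) (hx : x ∈ keys t) :
    ancs (insert x E) (splay x t) ≤ ancs E t + 2 := by
  obtain ⟨l, r, hlr⟩ := splay_root x t
  have hb' := bst_splay hb hx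
  rw [hlr] at hb'
  obtain ⟨_, _, g3, g4⟩ := bst_node hb'
  have h0 := splay_clos (E := E) hb hx
  rw [hlr] at h0 ⊢
  have e1 : ancs (insert x E) l = ancs E l := ancs_congr (fun k hk => by
    have := g3 k hk
    simp only [Finset.mem_insert]
    constructor
    · rintro (h | h)
      · omega
      · exact h
    · exact Or.inr)
  have e2 : ancs (insert x E) r = ancs E r := ancs_congr (fun k hk => by
    have := g4 k hk
    simp only [Finset.mem_insert]
    constructor
    · rintro (h | h)
      · omega
      · exact h
    · exact Or.inr)
  have e3 := ancs_le (insert x E) x l r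
  rw [e1, e2] at e3
  by_cases h : Meets E (node x l r)
  · rw [ancs_of_meets h] at h0
    omega
  · have h' := h
    rw [meets_node] at h'
    push Not at h'
    rw [ancs_not_meets h'.2.1, ancs_not_meets h'.2.2] at e3
    omega

/-- a key of `E` has fewer proper ancestors than `ancs E t` -/
theorem dep_lt_ancs {E : Finset ℕ} {x : ℕ} (hE : x ∈ E) : ∀ {t : Tr}, IsBST t → x ∈ keys t →
    dep x t + 1 ≤ ancs E t := by
  intro t
  induction t with
  | nil => intro _ h; simp [keys] at h
  | node a l r ihl ihr =>
    intro hb hx
    obtain ⟨g1, g2, g3, g4⟩ := bst_node hb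
    have hm : Meets E (node a l r) := ⟨x, hx, hE⟩
    rw [ancs_of_meets hm]
    simp only [keys, List.mem_append, List.mem_cons] at hx
    rcases hx with hx | hx | hx
    · rw [dep_l (g3 x hx)]; have := ihl g1 hx; omega
    · subst hx; rw [dep_a]; omega
    · rw [dep_r (g4 x hx)]; have := ihr g2 hx; omega

/-- splaying an empty set -/
theorem splay_single {x : ℕ} {t : Tr} (hb : IsBST t) (hx : x ∈ keys t) :
    ancs {x} (splay x t) = 1 := by
  obtain ⟨l, r, hlr⟩ := splay_root x t
  have hb' := bst_splay hb hx
  rw [hlr] at hb' ⊢
  obtain ⟨_, _, g3, g4⟩ := bst_node hb'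
  rw [ancs_of_meets ((meets_node _ _ _ _).2 (Or.inl (Finset.mem_singleton_self x)))]
  rw [ancs_not_meets (t := l), ancs_not_meets (t := r)]
  · rintro ⟨k, hk, hE⟩
    rw [Finset.mem_singleton] at hE
    have := g4 k hk
    omega
  · rintro ⟨k, hk, hE⟩
    rw [Finset.mem_singleton] at hE
    have := g3 k hk
    omega

/-- the state of a splay tree after the requests `H` (most recent first) -/
def Inv (H : List ℕ) (S : Tr) : Prop :=
  ∀ n, 1 ≤ n → 1 ≤ H.length → ancs (H.take n).toFinset S + 1 ≤ 2 * (H.take n).toFinset.card

theorem inv_nil (S : Tr) : Inv [] S := by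
  intro n _ h
  simp at h

theorem inv_cons {H : List ℕ} {S : Tr} {x : ℕ} (hb : IsBST S) (hx : x ∈ keys S)
    (h : Inv H S) : Inv (x :: H) (splay x S) := by
  intro n hn _
  obtain ⟨m, rfl⟩ : ∃ m, n = m + 1 := ⟨n - 1, by omega⟩
  rw [List.take_succ_cons, List.toFinset_cons]
  by_cases h0 : (H.take m).toFinset = ∅
  · rw [h0]
    have e : insert x (∅ : Finset ℕ) = {x} := by simp
    rw [e, splay_single hb hx]
    simp
  · have hm : 1 ≤ m := by
      rcases Nat.eq_zero_or_pos m with h1 | h1
      · subst h1; simp at h0
      · exact h1
    have hH : 1 ≤ H.length := by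
      rcases H with _ | ⟨a, H⟩
      · simp at h0
      · simp
    have hi := h m hm hH
    by_cases hx' : x ∈ (H.take m).toFinset
    · rw [Finset.insert_eq_of_mem hx']
      have := splay_clos_mem (E := (H.take m).toFinset) hb hx hx'
      omega
    · rw [Finset.card_insert_of_notMem hx']
      have := splay_clos_insert (E := (H.take m).toFinset) hb hx
      omega

end Pool.Agent.TH22.SP
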