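import Pool.Agent.H581R2.SplayDef

set_option autoImplicit false

/-! Executions with one-sided contractions and rotations near the last `k` distinct keys. -/

namespace Pool.Agent.TH22.SP

open Pool.Agent.H581R2.Splay Tr

/-- `Below T u z`: the key `z` lies in the subtree of `T` whose root is the key `u` -/
inductive Below : Tr → ℕ → ℕ → Prop
  | root (u z : ℕ) (l r : Tr) : z ∈ keys (node u l r) → Below (node u l r) u z
  | inl (a u z : ℕ) (l r : Tr) : Below l u z → Below (node a l r) u z
  | inr (a u z : ℕ) (l r : Tr) : Below r u z → Below (node a l r) u z

/-- keys of the nodes on the path of frames, and of the subtrees hanging from it, which are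
smaller than the keys at the end of the path, in symmetric order -/
def before : List Fr → List ℕ
  | [] => []
  | Fr.inL _ _ :: fs => before fs
  | Fr.inR a l :: fs => before fs ++ (keys l ++ [a])

/-- the same for the larger keys -/
def after : List Fr → List ℕ
  | [] => []
  | Fr.inL a r :: fs => a :: keys r ++ after fs
  | Fr.inR _ _ :: fs => after fs

/-- `Change H T T' w`, where `H` lists the keys requested so far, the last one first: `T'`
arises from `T` by one of the following changes, which is charged `w`.

* `side`: a one-sided contraction at the key `x` requested last. The keys are the same, and for
  any two keys `u`, `z` on the same side of `x` such that `z` lies in the subtree of `u`, `u` is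
  in `T'` at most as deep as `z` and the difference of their depths does not increase. The charge
  is any number not smaller than the increase of the depth of `x`.
* `lift`: the key `x` requested last is moved, by rotations at `x`, to the top of a subtree `t` of
  the tree; let `a` be the root of `t`. If `x < a` then the least key larger than all keys of `t`
  (if it exists; it is an ancestor of `t`) was requested before; if `a < x` then the same holds
  for the greatest smaller key. The charge is the number of distinct keys among the last requests,
  up to the last request of that ancestor (`0` if it does not exist).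
* `move`: a key `y` which was requested before is moved to the root by rotations at `y`. The
  charge is `d * (1 + depth of y)`, where `d` is the number of distinct keys requested since the
  last request of `y`, `y` included.
* `up`, `down`: one rotation, of the edge between `a` and its left child `b` (or back). The keys
  `a` and `b`, and the keys of `T` next to those of the subtree in which the rotation takes place
  (if they exist), were requested before. The charge is `2 * d`, where `d` is the number of
  distinct keys among the last requests, up to the oldest of the last requests of these keys.
* `rot`: any rotation, charged the number of nodes of the subtree in which it takes place. -/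
inductive Change (H : List ℕ) : Tr → Tr → ℕ → Prop
  | side (x : ℕ) (H' : List ℕ) (T T' : Tr) (w : ℕ) : H = x :: H' → keys T' = keys T →
      (∀ u ∈ keys T, ∀ z ∈ keys T, ((u < x ∧ z < x) ∨ (x < u ∧ x < z)) → Below T u z →
        dep u T' ≤ dep z T' ∧ dep z T' + dep u T ≤ dep z T + dep u T') →
      dep x T' ≤ dep x T + w → Change H T T' w
  | lift (n x : ℕ) (H' : List ℕ) (fs : List Fr) (t : Tr) : H = x :: H' → x ∈ keys t →
      (∀ a l r, t = node a l r →
        (x < a → ∀ q, (after fs).head? = some q → q ∈ H.take n) ∧
        (a < x → ∀ q, (before fs).getLast? = some q → q ∈ H.take n)) →
      Change H (plug fs t) (plug fs (toRoot x t)) (H.take n).toFinset.card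
  | move (n y : ℕ) (T : Tr) : y ∈ H.take n →
      Change H T (toRoot y T) ((H.take n).toFinset.card * (1 + dep y T))
  | up (n a b : ℕ) (A B C : Tr) (fs : List Fr) :
      a ∈ H.take n → b ∈ H.take n → (∀ q, (before fs).getLast? = some q → q ∈ H.take n) →
      (∀ q, (after fs).head? = some q → q ∈ H.take n) →
      Change H (plug fs (node a (node b A B) C)) (plug fs (node b A (node a B C)))
        (2 * (H.take n).toFinset.card)
  | down (n a b : ℕ) (A B C : Tr) (fs : List Fr) :
      a ∈ H.take n → b ∈ H.take n → (∀ q, (before fs).getLast? = some q → q ∈ H.take n) →
      (∀ q, (after fs).head? = some q → q ∈ H.take n) →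
      Change H (plug fs (node b A (node a B C))) (plug fs (node a (node b A B) C))
        (2 * (H.take n).toFinset.card)
  | rot (T T' : Tr) (s : ℕ) : Rot T T' s → Change H T T' s

/-- finitely many changes; `w` is the sum of the charges -/
inductive Changes (H : List ℕ) : Tr → Tr → ℕ → Prop
  | refl (T : Tr) : Changes H T T 0
  | step (T T' T'' : Tr) (s w : ℕ) : Change H T T' s → Changes H T' T'' w →
      Changes H T T'' (s + w)

/-- `Exec H T X c`: after the requests `H` (the last one first) the sequence `X` is served from
the tree `T`: each requested key is searched (cost one plus its depth), then the tree is changed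
as in `Changes`; `c` is the sum of the costs and charges. -/
inductive Exec : List ℕ → Tr → List ℕ → ℕ → Prop
  | nil (H : List ℕ) (T : Tr) : Exec H T [] 0
  | cons (H : List ℕ) (T T' : Tr) (x : ℕ) (X : List ℕ) (w c : ℕ) :
      Changes (x :: H) T T' w → Exec (x :: H) T' X c →
      Exec H T (x :: X) (1 + dep x T + w + c)

end Pool.Agent.TH22.SP
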