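import Pool.Agent.TH22.SP.Clos

set_option autoImplicit false

/-! Depths of recently requested keys. -/

namespace Pool.Agent.TH22.SP

open Pool.Agent.H581R2.Splay Tr

/-- the splay tree after the requests `X` -/
def after' (T : Tr) (X : List ℕ) : Tr := X.foldl (fun t x => splay x t) T

theorem after'_append (T : Tr) (X Y : List ℕ) : after' T (X ++ Y) = after' (after' T X) Y := by
  unfold after'
  rw [List.foldl_append]

theorem state {T : Tr} (hb : IsBST T) : ∀ X : List ℕ, (∀ x ∈ X, x ∈ keys T) →
    keys (after' T X) = keys T ∧ Inv X.reverse (after' T X) := by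
  intro X
  induction X using List.reverseRecOn with
  | nil => intro _; exact ⟨rfl, inv_nil _⟩
  | append_singleton X x ih =>
    intro h
    obtain ⟨h1, h2⟩ := ih (fun y hy => h y (by simp [hy]))
    have hb' : IsBST (after' T X) := by unfold IsBST; rw [h1]; exact hb
    have hx : x ∈ keys (after' T X) := by rw [h1]; exact h x (by simp)
    have e : after' T (X ++ [x]) = splay x (after' T X) := by rw [after'_append]; rfl
    refine ⟨by rw [e, splay_keys hb' hx, h1], ?_⟩
    rw [e, List.reverse_append]
    exact inv_cons hb' hx h2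

theorem clos_bound {H : List ℕ} {S : Tr} (hi : Inv H S) {n a : ℕ} (ha : a ∈ H.take n) :
    ancs (H.take n).toFinset S + 1 ≤ 2 * (H.take n).toFinset.card := by
  have hn : 1 ≤ n := by
    rcases Nat.eq_zero_or_pos n with h | h
    · subst h; simp at ha
    · exact h
  have hH : 1 ≤ H.length := by
    rcases H with _ | ⟨b, H⟩
    · simp at ha
    · simp
  exact hi n hn hH

theorem depth_bound {H : List ℕ} {S : Tr} (hi : Inv H S) (hb : IsBST S) {n a : ℕ}
    (ha : a ∈ H.take n) (hk : a ∈ keys S) :
    dep a S + 2 ≤ 2 * (H.take n).toFinset.card := by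
  have h1 := clos_bound hi ha
  have h2 := dep_lt_ancs (E := (H.take n).toFinset) (x := a) (by simpa using ha) hb hk
  omega

/-- the cost of requests to recent keys -/
theorem cost_recent {k : ℕ} : ∀ (X : List ℕ) (H : List ℕ) (S : Tr), IsBST S →
    (∀ x ∈ X, x ∈ keys S) → Inv H S →
    (∀ P x R, X = P ++ x :: R → ∃ n, x ∈ (P.reverse ++ H).take n ∧
      ((P.reverse ++ H).take n).toFinset.card ≤ k) →
    costSplay S X ≤ (2 * k - 1) * X.length := by
  intro X
  induction X with
  | nil => intro H S _ _ _ _; simp [costSplay]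
  | cons x X ih =>
    intro H S hb hX hi hrec
    have hx : x ∈ keys S := hX x (by simp)
    obtain ⟨n, h1, h2⟩ := hrec [] x X rfl
    simp only [List.reverse_nil, List.nil_append] at h1 h2
    have h3 := depth_bound hi hb h1 hx
    have hk : keys (splay x S) = keys S := splay_keys hb hx
    have h4 := ih (x :: H) (splay x S) (bst_splay hb hx) (fun y hy => by rw [hk]; exact hX y (by simp [hy]))
      (inv_cons hb hx hi) (by
        intro P y R he
        obtain ⟨n, q1, q2⟩ := hrec (x :: P) y R (by rw [he]; rfl)
        refine ⟨n, ?_, ?_⟩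
        · simpa using q1
        · simpa using q2)
    simp only [costSplay, List.length_cons]
    have : (2 * k - 1) * (X.length + 1) = (2 * k - 1) * X.length + (2 * k - 1) := by ring
    omega

/-! Sharpness -/

/-- the path with the keys `a, a + 1, …, a + n - 1`, the least one at the root -/
def path : ℕ → ℕ → Tr
  | _, 0 => nil
  | a, n + 1 => node a nil (path (a + 1) n)

theorem keys_path : ∀ (n a : ℕ), keys (path a n) = List.range' a n := by
  intro n
  induction n with
  | zero => intro a; rfl
  | succ n ih => intro a; simp [path, keys, ih, List.range'_succ]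

theorem splay_step (a : ℕ) (L R : Tr) :
    splay (a + 2) (node a L (node (a + 1) nil (node (a + 2) nil R))) =
      node (a + 2) (node (a + 1) (node a L nil) nil) R := by
  simp [splay, locate, climb]

/-- the requests `a + 2, a + 4, …, a + 2 j` -/
def evens : ℕ → ℕ → List ℕ
  | _, 0 => []
  | a, j + 1 => (a + 2) :: evens (a + 2) j

theorem evens_run : ∀ (j a : ℕ) (L : Tr) (z : ℕ), z < a →
    ∃ L' , after' (node a L (path (a + 1) (2 * j))) (evens a j) = node (a + 2 * j) L' nil ∧
      (1 ≤ j → dep z L' = dep z L + 2 * j) ∧ (j = 0 → L' = L) := by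
  intro j
  induction j with
  | zero => intro a L z _; exact ⟨L, rfl, by omega, fun _ => rfl⟩
  | succ j ih =>
    intro a L z hz
    have e : path (a + 1) (2 * (j + 1)) =
        node (a + 1) nil (node (a + 2) nil (path (a + 3) (2 * j))) := rfl
    have e2 : after' (node a L (path (a + 1) (2 * (j + 1)))) (evens a (j + 1)) =
        after' (node (a + 2) (node (a + 1) (node a L nil) nil) (path (a + 2 + 1) (2 * j)))
          (evens (a + 2) j) := by
      rw [e]
      show after' (splay (a + 2) _) (evens (a + 2) j) = _
      rw [splay_step]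
    obtain ⟨L', h1, h2, h3⟩ := ih (a + 2) (node (a + 1) (node a L nil) nil) z (by omega)
    refine ⟨L', ?_, ?_, by omega⟩
    · rw [e2, h1]
      congr 1
      omega
    · intro _
      have d : dep z (node (a + 1) (node a L nil) nil) = dep z L + 2 := by
        rw [dep_l (by omega), dep_l (by omega)]
      rcases Nat.eq_zero_or_pos j with hj | hj
      · rw [h3 hj, d, hj]
      · rw [h2 hj, d]; ring

theorem evens_spec : ∀ (j a : ℕ), (evens a j).Nodup ∧ (∀ y ∈ evens a j, a < y ∧ y ≤ a + 2 * j) ∧
    (evens a j).length = j := by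
  intro j
  induction j with
  | zero => intro a; simp [evens]
  | succ j ih =>
    intro a
    obtain ⟨h1, h2, h3⟩ := ih (a + 2)
    refine ⟨?_, ?_, by simp [evens, h3]⟩
    · simp only [evens, List.nodup_cons]
      exact ⟨fun h => by have := h2 _ h; omega, h1⟩
    · intro y hy
      simp only [evens, List.mem_cons] at hy
      rcases hy with hy | hy
      · omega
      · have := h2 y hy; omega

theorem sharp (k : ℕ) : ∃ (T : Tr) (a : ℕ) (X : List ℕ), IsBST T ∧ (∀ x ∈ a :: X, x ∈ keys T) ∧
    a ∉ X ∧ X.toFinset.card = k ∧ dep a (after' T (a :: X)) = 2 * k := by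
  refine ⟨path 1 (2 * k + 1), 1, evens 1 k, ?_, ?_, ?_, ?_, ?_⟩
  · unfold IsBST
    rw [keys_path]
    exact List.pairwise_lt_range'
  · intro x hx
    rw [keys_path, List.mem_range'_1]
    rcases List.mem_cons.1 hx with h | h
    · omega
    · have := (evens_spec k 1).2.1 x h; omega
  · intro h
    have := (evens_spec k 1).2.1 1 h
    omega
  · rw [List.toFinset_card_of_nodup (evens_spec k 1).1, (evens_spec k 1).2.2]
  · have e0 : after' (path 1 (2 * k + 1)) (1 :: evens 1 k) =
        after' (node 1 nil (path 2 (2 * k))) (evens 1 k) := by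
      show after' (splay 1 (node 1 nil (path 2 (2 * k)))) (evens 1 k) = _
      congr 1
    rw [e0]
    rcases Nat.eq_zero_or_pos k with hk | hk
    · subst hk; rfl
    · obtain ⟨j, rfl⟩ : ∃ j, k = j + 1 := ⟨k - 1, by omega⟩
      have e1 : after' (node 1 nil (path 2 (2 * (j + 1)))) (evens 1 (j + 1)) =
          after' (node 3 (node 2 (node 1 nil nil) nil) (path (3 + 1) (2 * j))) (evens 3 j) := by
        show after' (splay 3 (node 1 nil (node 2 nil (node 3 nil (path 4 (2 * j)))))) (evens 3 j) = _
        congr 1
      rw [e1]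
      obtain ⟨L', h1, h2, h3⟩ := evens_run j 3 (node 2 (node 1 nil nil) nil) 1 (by omega)
      rw [h1, dep_l (by omega)]
      have d : dep 1 (node 2 (node 1 nil nil) nil) = 1 := by simp [dep]
      rcases Nat.eq_zero_or_pos j with hj | hj
      · rw [h3 hj, d, hj]
      · rw [h2 hj, d]; ring

end Pool.Agent.TH22.SP
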