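import Pool.Agent.TH22.SP.Pot
import Pool.Agent.TH22.SP.Defs

set_option autoImplicit false

/-! Lifting the requested key to the top of a subtree. -/

namespace Pool.Agent.TH22.SP

open Pool.Agent.H581R2.Splay Tr

/-- as `phi_mono`, with an additional loss of one at the nodes whose subtree meets `Q` -/
theorem phi_mono_sep {M : ℕ} {f g : ℕ → ℕ} {K : List ℕ} {Q : Finset ℕ} (x : ℕ)
    (hcmp : ∀ u ∈ K, ∀ z ∈ K, ((u < x ∧ z < x) ∨ (x < u ∧ x < z)) →
      (∀ k ∈ K, ((u ≤ k ∧ k ≤ z) ∨ (z ≤ k ∧ k ≤ u)) → f u ≤ f k) →
      g u ≤ g z ∧ (g z + f u ≤ f z + g u ∨ (g z + f u ≤ f z + g u + 1 ∧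
        ∃ q ∈ Q, q ∈ K ∧ ((u ≤ q ∧ q ≤ z) ∨ (z ≤ q ∧ q ≤ u)))))
    (hfM : ∀ k ∈ K, f k ≤ M) (hgM : ∀ k ∈ K, g k ≤ M) :
    ∀ (t : Tr) (A C : List ℕ), (A ++ keys t ++ C).Pairwise (· < ·) → A ++ keys t ++ C = K →
      ((∀ k ∈ keys t, k < x) ∨ (∀ k ∈ keys t, x < k)) →
      Phi M g t ≤ Phi M f t + (ancs Q t : ℤ) := by
  intro t
  induction t with
  | nil => intro A C _ _ _; simp [Phi, ancs]
  | node a l r ihl ihr =>
    intro A C hs hK hside
    have hl := ihl A (a :: keys r ++ C)
      (by simp only [keys] at hs; simpa [List.append_assoc] using hs)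
      (by rw [← hK]; simp [keys])
      (by
        rcases hside with h | h
        · left; intro k hk; exact h k (by simp [keys, hk])
        · right; intro k hk; exact h k (by simp [keys, hk]))
    have hr := ihr (A ++ keys l ++ [a]) C
      (by simp only [keys] at hs; simpa [List.append_assoc] using hs)
      (by rw [← hK]; simp [keys])
      (by
        rcases hside with h | h
        · left; intro k hk; exact h k (by simp [keys, hk])
        · right; intro k hk; exact h k (by simp [keys, hk]))
    have hin : ∀ k ∈ keys (node a l r), k ∈ K := by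
      intro k hk; rw [← hK]; simp [hk]
    obtain ⟨u, hu, eu⟩ := mn_att (M := M) (f := f) (t := node a l r)
      (fun k hk => hfM k (hin k hk)) (by simp)
    have hbetween : ∀ k ∈ K, ∀ z ∈ keys (node a l r),
        ((u ≤ k ∧ k ≤ z) ∨ (z ≤ k ∧ k ≤ u)) → k ∈ keys (node a l r) := by
      intro k hk z hz hb
      rw [← hK] at hk
      rw [List.pairwise_append, List.pairwise_append] at hs
      obtain ⟨⟨_, _, hAB⟩, _, hC⟩ := hs
      rw [List.mem_append, List.mem_append] at hk
      rcases hk with (hk | hk) | hk
      · have q1 := hAB k hk u hu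
        have q2 := hAB k hk z hz
        omega
      · exact hk
      · have q1 := hC u (List.mem_append.2 (Or.inr hu)) k hk
        have q2 := hC z (List.mem_append.2 (Or.inr hz)) k hk
        omega
    have hbet : ∀ z ∈ keys (node a l r), g u ≤ g z ∧ (g z + f u ≤ f z + g u ∨
        (g z + f u ≤ f z + g u + 1 ∧ ∃ q ∈ Q, q ∈ K ∧ ((u ≤ q ∧ q ≤ z) ∨ (z ≤ q ∧ q ≤ u)))) := by
      intro z hz
      refine hcmp u (hin u hu) z (hin z hz) ?_ ?_
      · rcases hside with h | h
        · left; exact ⟨h u hu, h z hz⟩
        · right; exact ⟨h u hu, h z hz⟩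
      · intro k hk hb
        rw [eu]; exact mn_le_key (hbetween k hk z hz hb)
    have hmg : g u ≤ mn M g (node a l r) :=
      mn_ge _ (fun k hk => (hbet k hk).1) (hgM u (hin u hu))
    have ha := (hbet a (by simp [keys])).2
    have hle := le_ancs Q a l r
    simp only [Phi]
    rw [← eu]
    rcases ha with ha | ⟨ha, q, hq, hqK, hqb⟩
    · push_cast
      omega
    · have hm : Meets Q (node a l r) :=
        ⟨q, hbetween q hqK a (by simp [keys]) hqb, hq⟩
      rw [ancs_of_meets hm]
      push_cast
      omega

theorem pre_depth {q : ℕ} : ∀ (fs : List Fr) (t : Tr), IsBST (plug fs t) →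
    (pre fs).getLast? = some q → dep q (plug fs t) < fs.length := by
  intro fs
  induction fs with
  | nil => intro t _ h; simp [pre] at h
  | cons f fs ih =>
    intro t hb h
    cases f with
    | inL a r =>
      simp only [pre] at h
      have := ih (plug1 (Fr.inL a r) t) hb h
      simp only [plug, List.length_cons]
      omega
    | inR a l =>
      have e : q = a := by
        simp only [pre] at h
        rw [← List.append_assoc, List.getLast?_append] at h
        simpa using h.symm
      subst e
      simp only [plug, List.length_cons]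
      rw [dep_plug_in fs _ hb (by simp [plug1, keys])]
      have : dep q (plug1 (Fr.inR q l) t) = 0 := dep_a
      omega

theorem post_depth {q : ℕ} : ∀ (fs : List Fr) (t : Tr), IsBST (plug fs t) →
    (post fs).head? = some q → dep q (plug fs t) < fs.length := by
  intro fs
  induction fs with
  | nil => intro t _ h; simp [post] at h
  | cons f fs ih =>
    intro t hb h
    cases f with
    | inR a r =>
      simp only [post] at h
      have := ih (plug1 (Fr.inR a r) t) hb h
      simp only [plug, List.length_cons]
      omega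
    | inL a l =>
      have e : q = a := by
        simp only [post, List.cons_append, List.head?_cons, Option.some.injEq] at h
        exact h.symm
      subst e
      simp only [plug, List.length_cons]
      rw [dep_plug_in fs _ hb (by simp [plug1, keys])]
      have : dep q (plug1 (Fr.inL q l) t) = 0 := dep_a
      omega

/-- keys on the side of `x` opposite to the root do not get deeper -/
theorem toRoot_opposite {x a : ℕ} {L R : Tr} (hb : IsBST (node a L R))
    (hx : x ∈ keys (node a L R)) {z : ℕ} (hz : z ∈ keys (node a L R))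
    (h : (x < a ∧ z < x) ∨ (a < x ∧ x < z)) :
    dep z (toRoot x (node a L R)) ≤ dep z (node a L R) := by
  obtain ⟨g1, g2, g3, g4⟩ := bst_node hb
  rcases h with ⟨h1, h2⟩ | ⟨h1, h2⟩
  · have hxl : x ∈ keys L := by
      simp only [keys, List.mem_append, List.mem_cons] at hx
      rcases hx with h | h | h
      · exact h
      · omega
      · have := g4 x h; omega
    have hzl : z ∈ keys L := by
      simp only [keys, List.mem_append, List.mem_cons] at hz
      rcases hz with h | h | h
      · exact h
      · omega
      · have := g4 z h; omega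
    obtain ⟨⟨L1, R1, hh⟩, _⟩ := toRoot_spec x L g1 hxl
    obtain ⟨i1, _⟩ := toRoot_cmp x L g1 hxl
    have ht : toRoot x (node a L R) = node x L1 (node a R1 R) := by
      simp only [toRoot]; rw [if_neg (by omega), if_pos h1, hh]; rfl
    have := i1 z hzl
    rw [hh, dep_l h2] at this
    rw [ht, dep_l h2, dep_l (g3 z hzl)]
    omega
  · have hxr : x ∈ keys R := by
      simp only [keys, List.mem_append, List.mem_cons] at hx
      rcases hx with h | h | h
      · have := g3 x h; omega
      · omega
      · exact h
    have hzr : z ∈ keys R := by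
      simp only [keys, List.mem_append, List.mem_cons] at hz
      rcases hz with h | h | h
      · have := g3 z h; omega
      · omega
      · exact h
    obtain ⟨⟨L1, R1, hh⟩, _⟩ := toRoot_spec x R g2 hxr
    obtain ⟨i1, _⟩ := toRoot_cmp x R g2 hxr
    have ht : toRoot x (node a L R) = node x (node a L L1) R1 := by
      simp only [toRoot]; rw [if_neg (by omega), if_neg (by omega), hh]; rfl
    have := i1 z hzr
    rw [hh, dep_r h2] at this
    rw [ht, dep_r h2, dep_r (g4 z hzr)]
    omega

/-- the comparison of the depths when `x` is lifted to the top of a subtree -/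
theorem lift_cmp {x : ℕ} {fs : List Fr} {t : Tr} {Q : Finset ℕ} (hb : IsBST (plug fs t))
    (hx : x ∈ keys t)
    (hQ : ∀ a l r, t = node a l r →
      (x < a → ∀ q, (post fs).head? = some q → q ∈ Q) ∧
      (a < x → ∀ q, (pre fs).getLast? = some q → q ∈ Q)) :
    ∀ u ∈ keys (plug fs t), ∀ z ∈ keys (plug fs t), ((u < x ∧ z < x) ∨ (x < u ∧ x < z)) →
      (∀ k ∈ keys (plug fs t), ((u ≤ k ∧ k ≤ z) ∨ (z ≤ k ∧ k ≤ u)) →
        dep u (plug fs t) ≤ dep k (plug fs t)) →
      dep u (plug fs (toRoot x t)) ≤ dep z (plug fs (toRoot x t)) ∧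
      (dep z (plug fs (toRoot x t)) + dep u (plug fs t) ≤
          dep z (plug fs t) + dep u (plug fs (toRoot x t)) ∨
        (dep z (plug fs (toRoot x t)) + dep u (plug fs t) ≤
            dep z (plug fs t) + dep u (plug fs (toRoot x t)) + 1 ∧
          ∃ q ∈ Q, q ∈ keys (plug fs t) ∧ ((u ≤ q ∧ q ≤ z) ∨ (z ≤ q ∧ q ≤ u)))) := by
  intro u hu z hz hside hdom
  have hbt : IsBST t := by
    have : (keys (plug fs t)).Pairwise (· < ·) := hb
    rw [keys_plug] at this
    exact (List.pairwise_append.1 (List.pairwise_append.1 this).1).2.1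
  obtain ⟨_, hkt⟩ := toRoot_spec x t hbt hx
  obtain ⟨c1, c2⟩ := toRoot_cmp x t hbt hx
  have hb' : IsBST (plug fs (toRoot x t)) := by
    unfold IsBST
    rw [keys_plug, hkt, ← keys_plug]
    exact hb
  have hs : (pre fs ++ keys t ++ post fs).Pairwise (· < ·) := by rw [← keys_plug]; exact hb
  have hs' := hs
  rw [List.pairwise_append, List.pairwise_append] at hs'
  obtain ⟨⟨hpre, hmid, hAB⟩, hpost, hC⟩ := hs'
  have hin : ∀ k ∈ keys t, k ∈ keys (plug fs t) := by intro k hk; rw [keys_plug]; simp [hk]
  have dt : ∀ k ∈ keys t, dep k (plug fs t) = dep k t + fs.length :=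
    fun k hk => dep_plug_in fs t hb hk
  have dt' : ∀ k ∈ keys t, dep k (plug fs (toRoot x t)) = dep k (toRoot x t) + fs.length :=
    fun k hk => dep_plug_in fs _ hb' (by rw [hkt]; exact hk)
  have dout : ∀ k ∈ keys (plug fs t), k ∉ keys t →
      dep k (plug fs (toRoot x t)) = dep k (plug fs t) :=
    fun k hk hn => dep_plug_out fs t _ hb hkt hk hn
  by_cases h1 : u ∈ keys t
  · by_cases h2 : z ∈ keys t
    · have := c2 u h1 z h2 hside (fun k hk hbt' => by
        have := hdom k (hin k hk) hbt'
        rw [dt u h1, dt k hk] at this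
        omega)
      rw [dt u h1, dt z h2, dt' u h1, dt' z h2]
      omega
    · -- `z` outside: impossible
      exfalso
      have hz' := hz
      rw [keys_plug, List.mem_append, List.mem_append] at hz'
      rcases hz' with (h | h) | h
      · obtain ⟨q, hq1, hq2, hq3⟩ := le_getLast _ hpre z h
        have h5 := hAB q hq3 u h1
        have h6 := hdom q (by rw [keys_plug]; simp [hq3]) (Or.inr ⟨hq2, by omega⟩)
        have h7 := pre_depth fs t hb hq1
        rw [dt u h1] at h6
        omega
      · exact h2 h
      · obtain ⟨q, hq1, hq2, hq3⟩ := head_le _ hpost z h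
        have h5 := hC u (by simp [h1]) q hq3
        have h6 := hdom q (by rw [keys_plug]; simp [hq3]) (Or.inl ⟨by omega, hq2⟩)
        have h7 := post_depth fs t hb hq1
        rw [dt u h1] at h6
        omega
  · by_cases h2 : z ∈ keys t
    · rw [dout u hu h1, dt z h2, dt' z h2]
      have hc := c1 z h2
      have hu' := hu
      rw [keys_plug, List.mem_append, List.mem_append] at hu'
      obtain ⟨a, l, r, ht⟩ : ∃ a l r, t = node a l r := by
        cases t with
        | nil => simp [keys] at hx
        | node a l r => exact ⟨a, l, r, rfl⟩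
      obtain ⟨Q1, Q2⟩ := hQ a l r ht
      rcases hu' with (h | h) | h
      · -- `u` before the subtree
        obtain ⟨q, hq1, hq2, hq3⟩ := le_getLast _ hpre u h
        have h5 := hAB q hq3 z h2
        have h6 := hdom q (by rw [keys_plug]; simp [hq3]) (Or.inl ⟨hq2, by omega⟩)
        have h7 := pre_depth fs t hb hq1
        have h8 := hAB u h x hx
        refine ⟨by omega, ?_⟩
        rcases lt_trichotomy a x with h9 | h9 | h9
        · right
          exact ⟨by omega, q, Q2 h9 q hq1, by rw [keys_plug]; simp [hq3], Or.inl ⟨hq2, by omega⟩⟩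
        · left
          have : toRoot x t = t := by
            rw [ht]; simp only [toRoot]; rw [if_pos h9.symm]
          rw [this]
        · left
          have := toRoot_opposite (x := x) (a := a) (L := l) (R := r) (by rw [← ht]; exact hbt)
            (by rw [← ht]; exact hx) (z := z) (by rw [← ht]; exact h2)
            (Or.inl ⟨h9, by omega⟩)
          rw [← ht] at this
          omega
      · exact absurd h h1
      · obtain ⟨q, hq1, hq2, hq3⟩ := head_le _ hpost u h
        have h5 := hC z (by simp [h2]) q hq3
        have h6 := hdom q (by rw [keys_plug]; simp [hq3]) (Or.inr ⟨by omega, hq2⟩)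
        have h7 := post_depth fs t hb hq1
        have h8 := hC x (by simp [hx]) u h
        refine ⟨by omega, ?_⟩
        rcases lt_trichotomy a x with h9 | h9 | h9
        · left
          have := toRoot_opposite (x := x) (a := a) (L := l) (R := r) (by rw [← ht]; exact hbt)
            (by rw [← ht]; exact hx) (z := z) (by rw [← ht]; exact h2)
            (Or.inr ⟨h9, by omega⟩)
          rw [← ht] at this
          omega
        · left
          have : toRoot x t = t := by
            rw [ht]; simp only [toRoot]; rw [if_pos h9.symm]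
          rw [this]
        · right
          exact ⟨by omega, q, Q1 h9 q hq1, by rw [keys_plug]; simp [hq3], Or.inr ⟨by omega, hq2⟩⟩
    · rw [dout u hu h1, dout z hz h2]
      have := hdom z hz (by omega)
      omega

/-- the potential when the root `x` of the splay tree is lifted to the top of a subtree -/
theorem phi_lift {x : ℕ} {fs : List Fr} {t l r : Tr} {Q : Finset ℕ} (hb : IsBST (plug fs t))
    (hx : x ∈ keys t) (hk : keys (node x l r) = keys (plug fs t))
    (hQ : ∀ a l r, t = node a l r →
      (x < a → ∀ q, (post fs).head? = some q → q ∈ Q) ∧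
      (a < x → ∀ q, (pre fs).getLast? = some q → q ∈ Q))
    (hr0 : ∃ k ∈ keys (plug fs t), dep k (plug fs t) = 0) :
    Phi (size (plug fs t)) (fun k => dep k (plug fs (toRoot x t))) (node x l r) ≤
      Phi (size (plug fs t)) (fun k => dep k (plug fs t)) (node x l r) +
        (ancs Q (node x l r) : ℤ) := by
  have hbt : IsBST t := by
    have : (keys (plug fs t)).Pairwise (· < ·) := hb
    rw [keys_plug] at this
    exact (List.pairwise_append.1 (List.pairwise_append.1 this).1).2.1
  obtain ⟨⟨l0, r0, hroot⟩, hkt⟩ := toRoot_spec x t hbt hx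
  have hb' : IsBST (plug fs (toRoot x t)) := by
    unfold IsBST
    rw [keys_plug, hkt, ← keys_plug]
    exact hb
  have hkk : keys (plug fs (toRoot x t)) = keys (plug fs t) := by
    rw [keys_plug, hkt, ← keys_plug]
  have hsz : size (plug fs (toRoot x t)) = size (plug fs t) := by
    rw [size_eq, size_eq, hkk]
  have hcmp := lift_cmp (x := x) (fs := fs) (t := t) (Q := Q) hb hx hQ
  have hM : ∀ k ∈ keys (plug fs t), dep k (plug fs t) ≤ size (plug fs t) :=
    fun k _ => dep_le_size k _
  have hM' : ∀ k ∈ keys (plug fs t), dep k (plug fs (toRoot x t)) ≤ size (plug fs t) :=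
    fun k _ => by have := dep_le_size k (plug fs (toRoot x t)); omega
  have hbS : IsBST (node x l r) := by unfold IsBST; rw [hk]; exact hb
  obtain ⟨_, _, h1, h2⟩ := bst_node hbS
  have e : keys (node x l r) = keys l ++ x :: keys r := rfl
  have pl := phi_mono_sep (M := size (plug fs t)) (f := fun k => dep k (plug fs t))
    (g := fun k => dep k (plug fs (toRoot x t))) (K := keys (plug fs t)) (Q := Q) x
    hcmp hM hM' l [] (x :: keys r)
    (by rw [List.nil_append, ← e, hk]; exact hb) (by rw [List.nil_append, ← e, hk])
    (Or.inl h1)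
  have pr := phi_mono_sep (M := size (plug fs t)) (f := fun k => dep k (plug fs t))
    (g := fun k => dep k (plug fs (toRoot x t))) (K := keys (plug fs t)) (Q := Q) x
    hcmp hM hM' r (keys l ++ [x]) []
    (by
      have : keys l ++ [x] ++ keys r ++ [] = keys (plug fs t) := by rw [← hk, e]; simp
      rw [this]; exact hb)
    (by rw [← hk, e]; simp) (Or.inr h2)
  obtain ⟨k0, hk0, hk1⟩ := hr0
  have z3 : mn (size (plug fs t)) (fun k => dep k (plug fs t)) (node x l r) = 0 := by
    have : mn (size (plug fs t)) (fun k => dep k (plug fs t)) (node x l r) ≤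
        dep k0 (plug fs t) := mn_le_key (f := fun k => dep k (plug fs t)) (by rw [hk]; exact hk0)
    omega
  have z4 : dep x (plug fs (toRoot x t)) ≤ dep x (plug fs t) := by
    rw [dep_plug_in fs t hb hx, dep_plug_in fs _ hb' (by rw [hkt]; exact hx), hroot, dep_a]
    omega
  have hle := le_ancs Q x l r
  simp only [Phi]
  rw [z3]
  push_cast
  omega

end Pool.Agent.TH22.SP
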