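import Pool.Agent.TH22.SP.Pot
import Pool.Agent.TH22.SP.Defs
import Pool.Agent.TH22.SP.Lift

set_option autoImplicit false

/-! The comparison theorem. -/

namespace Pool.Agent.TH22.SP

open Pool.Agent.H581R2.Splay Tr

theorem before_eq : ∀ fs : List Fr, before fs = pre fs := by
  intro fs
  induction fs with
  | nil => rfl
  | cons f fs ih => cases f <;> simp [before, pre, ih]

theorem after_eq : ∀ fs : List Fr, after fs = post fs := by
  intro fs
  induction fs with
  | nil => rfl
  | cons f fs ih => cases f <;> simp [after, post, ih]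

/-! Below and levels -/

theorem below_mem {T : Tr} {u z : ℕ} (h : Below T u z) : u ∈ keys T ∧ z ∈ keys T := by
  induction h with
  | root u z l r h => exact ⟨by simp [keys], h⟩
  | inl a u z l r _ ih => exact ⟨by simp [keys, ih.1], by simp [keys, ih.2]⟩
  | inr a u z l r _ ih => exact ⟨by simp [keys, ih.1], by simp [keys, ih.2]⟩

theorem below_dom {T : Tr} {u z : ℕ} (h : Below T u z) : IsBST T →
    ∀ k ∈ keys T, ((u ≤ k ∧ k ≤ z) ∨ (z ≤ k ∧ k ≤ u)) → dep u T ≤ dep k T := by
  induction h with
  | root u z l r h =>
    intro _ k _ _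
    rw [dep_a]; exact Nat.zero_le _
  | inl a u z l r hB ih =>
    intro hb k hk hbt
    obtain ⟨g1, _, g3, g4⟩ := bst_node hb
    have hu := (below_mem hB).1
    have hz := (below_mem hB).2
    have e1 := g3 u hu
    have e2 := g3 z hz
    have hkl : k ∈ keys l := by
      simp only [keys, List.mem_append, List.mem_cons] at hk
      rcases hk with h | h | h
      · exact h
      · omega
      · have := g4 k h; omega
    rw [dep_l e1, dep_l (g3 k hkl)]
    have := ih g1 k hkl hbt
    omega
  | inr a u z l r hB ih =>
    intro hb k hk hbt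
    obtain ⟨_, g2, g3, g4⟩ := bst_node hb
    have hu := (below_mem hB).1
    have hz := (below_mem hB).2
    have e1 := g4 u hu
    have e2 := g4 z hz
    have hkr : k ∈ keys r := by
      simp only [keys, List.mem_append, List.mem_cons] at hk
      rcases hk with h | h | h
      · have := g3 k h; omega
      · omega
      · exact h
    rw [dep_r e1, dep_r (g4 k hkr)]
    have := ih g2 k hkr hbt
    omega

theorem dom_below {u z : ℕ} : ∀ {T : Tr}, IsBST T → u ∈ keys T → z ∈ keys T →
    (∀ k ∈ keys T, ((u ≤ k ∧ k ≤ z) ∨ (z ≤ k ∧ k ≤ u)) → dep u T ≤ dep k T) → Below T u z := by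
  intro T
  induction T with
  | nil => intro _ h; simp [keys] at h
  | node a l r ihl ihr =>
    intro hb hu hz hdom
    obtain ⟨g1, g2, g3, g4⟩ := bst_node hb
    by_cases e : u = a
    · subst e; exact Below.root u z l r hz
    · by_cases e2 : u < a
      · have hul : u ∈ keys l := by
          simp only [keys, List.mem_append, List.mem_cons] at hu
          rcases hu with h | h | h
          · exact h
          · exact absurd h e
          · have := g4 u h; omega
        have hza : z < a := by
          by_contra hc
          have := hdom a (by simp [keys]) (Or.inl ⟨by omega, by omega⟩)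
          rw [dep_a, dep_l e2] at this
          omega
        have hzl : z ∈ keys l := by
          simp only [keys, List.mem_append, List.mem_cons] at hz
          rcases hz with h | h | h
          · exact h
          · omega
          · have := g4 z h; omega
        refine Below.inl a u z l r (ihl g1 hul hzl ?_)
        intro k hk hbt
        have := hdom k (by simp [keys, hk]) hbt
        rw [dep_l e2, dep_l (g3 k hk)] at this
        omega
      · have hur : u ∈ keys r := by
          simp only [keys, List.mem_append, List.mem_cons] at hu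
          rcases hu with h | h | h
          · have := g3 u h; omega
          · exact absurd h e
          · exact h
        have hua : a < u := g4 u hur
        have hza : a < z := by
          by_contra hc
          have := hdom a (by simp [keys]) (Or.inr ⟨by omega, by omega⟩)
          rw [dep_a, dep_r hua] at this
          omega
        have hzr : z ∈ keys r := by
          simp only [keys, List.mem_append, List.mem_cons] at hz
          rcases hz with h | h | h
          · have := g3 z h; omega
          · omega
          · exact h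
        refine Below.inr a u z l r (ihr g2 hur hzr ?_)
        intro k hk hbt
        have := hdom k (by simp [keys, hk]) hbt
        rw [dep_r hua, dep_r (g4 k hk)] at this
        omega

/-- one-sided contractions when the key is the root of the splay tree -/
theorem phi_side {M x w : ℕ} {T T' l r : Tr} (hT : IsBST T)
    (hk : keys (node x l r) = keys T) (hM : ∀ k ∈ keys T, dep k T ≤ M)
    (hM' : ∀ k ∈ keys T, dep k T' ≤ M)
    (hc : ∀ u ∈ keys T, ∀ z ∈ keys T, ((u < x ∧ z < x) ∨ (x < u ∧ x < z)) → Below T u z →
        dep u T' ≤ dep z T' ∧ dep z T' + dep u T ≤ dep z T + dep u T')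
    (hw : dep x T' ≤ dep x T + w) (hr0 : ∃ k ∈ keys T, dep k T = 0) :
    Phi M (fun k => dep k T') (node x l r) ≤ Phi M (fun k => dep k T) (node x l r) + (w : ℤ) := by
  have hcmp : ∀ u ∈ keys T, ∀ z ∈ keys T, ((u < x ∧ z < x) ∨ (x < u ∧ x < z)) →
      (∀ k ∈ keys T, ((u ≤ k ∧ k ≤ z) ∨ (z ≤ k ∧ k ≤ u)) → dep u T ≤ dep k T) →
      dep u T' ≤ dep z T' ∧ dep z T' + dep u T ≤ dep z T + dep u T' :=
    fun u hu z hz hs hd => hc u hu z hz hs (dom_below hT hu hz hd)
  have hb : IsBST (node x l r) := by unfold IsBST; rw [hk]; exact hT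
  obtain ⟨_, _, h1, h2⟩ := bst_node hb
  have e : keys (node x l r) = keys l ++ x :: keys r := rfl
  have pl := phi_mono (M := M) (f := fun k => dep k T) (g := fun k => dep k T')
    (K := keys T) x hcmp hM hM' l [] (x :: keys r)
    (by rw [List.nil_append, ← e, hk]; exact hT) (by rw [List.nil_append, ← e, hk])
    (Or.inl h1)
  have pr := phi_mono (M := M) (f := fun k => dep k T) (g := fun k => dep k T')
    (K := keys T) x hcmp hM hM' r (keys l ++ [x]) []
    (by
      have : keys l ++ [x] ++ keys r ++ [] = keys T := by rw [← hk, e]; simp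
      rw [this]; exact hT)
    (by rw [← hk, e]; simp) (Or.inr h2)
  obtain ⟨k0, hk0, hk1⟩ := hr0
  have z3 : mn M (fun k => dep k T) (node x l r) = 0 := by
    have : mn M (fun k => dep k T) (node x l r) ≤ dep k0 T :=
      mn_le_key (f := fun k => dep k T) (by rw [hk]; exact hk0)
    omega
  simp only [Phi]
  rw [z3]
  push_cast
  omega

theorem exists_root {T : Tr} {x : ℕ} (hx : x ∈ keys T) : ∃ k ∈ keys T, dep k T = 0 := by
  cases T with
  | nil => simp [keys] at hx
  | node a l r => exact ⟨a, by simp [keys], dep_a⟩

/-! Rotations near recent keys -/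

theorem rot_plug {s : ℕ} : ∀ (fs : List Fr) {t t' : Tr}, Rot t t' s →
    Rot (plug fs t) (plug fs t') s := by
  intro fs
  induction fs with
  | nil => intro t t' h; exact h
  | cons f fs ih =>
    intro t t' h
    simp only [plug]
    apply ih
    cases f with
    | inL a r => exact Rot.inl a t t' r s h
    | inR a l => exact Rot.inr a l t t' s h

/-- the shift of the depths is constant between `b`, `a` and the ends of the subtree -/
theorem hin_up {a b : ℕ} {A B C : Tr} {Q : Finset ℕ} (ha : a ∈ Q) (hbQ : b ∈ Q)
    (hb : IsBST (node a (node b A B) C)) :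
    ∀ u ∈ keys (node a (node b A B) C), ∀ z ∈ keys (node a (node b A B) C), u ≤ z →
      (∀ q ∈ Q, q ∈ keys (node a (node b A B) C) → ¬ (u ≤ q ∧ q ≤ z)) →
      dep u (node b A (node a B C)) + dep z (node a (node b A B) C) =
        dep z (node b A (node a B C)) + dep u (node a (node b A B) C) := by
  intro u hu z hz huz hno
  obtain ⟨g1, g2, g3, g4⟩ := bst_node hb
  obtain ⟨g5, g6, g7, g8⟩ := bst_node g1
  have gb : b < a := g3 b (by simp [keys])
  have na := hno a ha (by simp [keys])
  have nb := hno b hbQ (by simp [keys])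
  have hd : ∀ k ∈ keys (node a (node b A B) C), k ≠ a → k ≠ b →
      (k < b ∧ dep k (node a (node b A B) C) = dep k A + 2 ∧
        dep k (node b A (node a B C)) = dep k A + 1) ∨
      (b < k ∧ k < a ∧ dep k (node a (node b A B) C) = dep k B + 2 ∧
        dep k (node b A (node a B C)) = dep k B + 2) ∨
      (a < k ∧ dep k (node a (node b A B) C) = dep k C + 1 ∧
        dep k (node b A (node a B C)) = dep k C + 2) := by
    intro k _ h1 h2
    rcases lt_trichotomy k b with h | h | h
    · left
      exact ⟨h, by rw [dep_l (show k < a by omega), dep_l h], by rw [dep_l h]⟩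
    · exact absurd h h2
    · rcases lt_trichotomy k a with h' | h' | h'
      · right; left
        exact ⟨h, h', by rw [dep_l h', dep_r h], by rw [dep_r h, dep_l h']⟩
      · exact absurd h' h1
      · right; right
        exact ⟨h', by rw [dep_r h'], by rw [dep_r (show b < k by omega), dep_r h']⟩
  have q1 := hd u hu (by rintro rfl; exact na ⟨le_refl _, huz⟩)
    (by rintro rfl; exact nb ⟨le_refl _, huz⟩)
  have q2 := hd z hz (by rintro rfl; exact na ⟨huz, le_refl _⟩)
    (by rintro rfl; exact nb ⟨huz, le_refl _⟩)
  omega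

theorem plug_bst_sub {fs : List Fr} {t : Tr} (hb : IsBST (plug fs t)) : IsBST t := by
  have : (keys (plug fs t)).Pairwise (· < ·) := hb
  rw [keys_plug] at this
  exact (List.pairwise_append.1 (List.pairwise_append.1 this).1).2.1

/-- the potential under a rotation near the keys of `Q` -/
theorem phi_near {fs : List Fr} {t t' S : Tr} {s : ℕ} {Q : Finset ℕ}
    (hR : Rot t t' s) (hb : IsBST (plug fs t)) (hQ : Sep Q fs)
    (hin : ∀ u ∈ keys t, ∀ z ∈ keys t, u ≤ z → (∀ q ∈ Q, q ∈ keys t → ¬ (u ≤ q ∧ q ≤ z)) →
      dep u t' + dep z t = dep z t' + dep u t)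
    (hkt : keys t' = keys t) (hk : keys S = keys (plug fs t)) :
    Phi (size (plug fs t)) (fun k => dep k (plug fs t')) S ≤
      Phi (size (plug fs t)) (fun k => dep k (plug fs t)) S + 2 * (ancs Q S : ℤ) := by
  obtain ⟨e, J, _, _, _, _, j4, _⟩ := rot_spec (rot_plug fs hR) hb
  have hsz : size (plug fs t') = size (plug fs t) := by rw [size_eq, size_eq, e]
  refine phi_sep (M := size (plug fs t)) (f := fun k => dep k (plug fs t))
    (g := fun k => dep k (plug fs t')) (K := keys (plug fs t)) (Q := Q)
    (fun k _ => dep_le_size k _) (fun k _ => by have := dep_le_size k (plug fs t'); omega)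
    (sep_plug hb hkt hQ hin) j4 S [] []
    (by
      have e0 : [] ++ keys S ++ [] = keys (plug fs t) := by simp [hk]
      rw [e0]; exact hb) (by simp [hk])

theorem inv_ancs {H : List ℕ} {S : Tr} {n a : ℕ} (hi : Inv H S) (ha : a ∈ H.take n) :
    ancs (H.take n).toFinset S + 1 ≤ 2 * (H.take n).toFinset.card := by
  have hn : 1 ≤ n := by
    rcases Nat.eq_zero_or_pos n with h | h
    · subst h; simp at ha
    · exact h
  have hH : 1 ≤ H.length := by
    rcases H with _ | ⟨b, H⟩
    · simp at ha
    · simp
  exact hi n hn hH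

theorem inv_ancs' {H : List ℕ} {S : Tr} (hi : Inv H S) (n : ℕ) :
    ancs (H.take n).toFinset S ≤ 2 * (H.take n).toFinset.card := by
  by_cases h : ∃ a, a ∈ H.take n
  · obtain ⟨a, ha⟩ := h
    have := inv_ancs hi ha
    omega
  · rw [ancs_not_meets]
    · exact Nat.zero_le _
    · rintro ⟨k, _, hk⟩
      exact h ⟨k, by simpa using hk⟩

/-- moving any key `y` to the root: only the nodes on the path to `y` can gain -/
theorem phi_move {M y : ℕ} {f g : ℕ → ℕ} {K : List ℕ}
    (hcmp : ∀ u ∈ K, ∀ z ∈ K, ((u < y ∧ z < y) ∨ (y < u ∧ y < z)) →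
      (∀ k ∈ K, ((u ≤ k ∧ k ≤ z) ∨ (z ≤ k ∧ k ≤ u)) → f u ≤ f k) →
      g u ≤ g z ∧ g z + f u ≤ f z + g u) (hfM : ∀ k ∈ K, f k ≤ M) (hgM : ∀ k ∈ K, g k ≤ M)
    (hup : ∀ k ∈ K, g k ≤ f k + 1) :
    ∀ (t : Tr) (A C : List ℕ), (A ++ keys t ++ C).Pairwise (· < ·) → A ++ keys t ++ C = K →
      y ∈ keys t → Phi M g t ≤ Phi M f t + (((dep y t + 1) * (1 + f y) : ℕ) : ℤ) := by
  intro t
  induction t with
  | nil => intro A C _ _ h; simp [keys] at h
  | node a l r ihl ihr =>
    intro A C hs hK hy
    have hsl : (A ++ keys l ++ (a :: keys r ++ C)).Pairwise (· < ·) := by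
      simp only [keys] at hs; simpa [List.append_assoc] using hs
    have hKl : A ++ keys l ++ (a :: keys r ++ C) = K := by rw [← hK]; simp [keys]
    have hsr : ((A ++ keys l ++ [a]) ++ keys r ++ C).Pairwise (· < ·) := by
      simp only [keys] at hs; simpa [List.append_assoc] using hs
    have hKr : (A ++ keys l ++ [a]) ++ keys r ++ C = K := by rw [← hK]; simp [keys]
    have hb : IsBST (node a l r) :=
      (List.pairwise_append.1 (List.pairwise_append.1 hs).1).2.1
    obtain ⟨g1, g2, g3, g4⟩ := bst_node hb
    have haK : a ∈ K := by rw [← hK]; simp [keys]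
    have hua := hup a haK
    have hmf : mn M f (node a l r) ≤ f y := mn_le_key hy
    simp only [keys, List.mem_append, List.mem_cons] at hy
    rcases hy with hy | hy | hy
    · have i1 := ihl A (a :: keys r ++ C) hsl hKl hy
      have i2 := phi_mono (M := M) (f := f) (g := g) (K := K) y hcmp hfM hgM r
        (A ++ keys l ++ [a]) C hsr hKr
        (Or.inr (fun k hk => by have := g3 y hy; have := g4 k hk; omega))
      rw [dep_l (g3 y hy)]
      simp only [Phi]
      push_cast at i1 ⊢
      have e : ((dep y l : ℤ) + 1 + 1) * (1 + (f y : ℤ)) =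
          ((dep y l : ℤ) + 1) * (1 + (f y : ℤ)) + (1 + (f y : ℤ)) := by ring
      rw [e]
      omega
    · subst hy
      have i1 := phi_mono (M := M) (f := f) (g := g) (K := K) y hcmp hfM hgM l
        A (y :: keys r ++ C) hsl hKl (Or.inl g3)
      have i2 := phi_mono (M := M) (f := f) (g := g) (K := K) y hcmp hfM hgM r
        (A ++ keys l ++ [y]) C hsr hKr (Or.inr g4)
      rw [dep_a]
      simp only [Phi]
      push_cast
      omega
    · have i1 := ihr (A ++ keys l ++ [a]) C hsr hKr hy
      have i2 := phi_mono (M := M) (f := f) (g := g) (K := K) y hcmp hfM hgM l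
        A (a :: keys r ++ C) hsl hKl
        (Or.inl (fun k hk => by have := g4 y hy; have := g3 k hk; omega))
      rw [dep_r (g4 y hy)]
      simp only [Phi]
      push_cast at i1 ⊢
      have e : ((dep y r : ℤ) + 1 + 1) * (1 + (f y : ℤ)) =
          ((dep y r : ℤ) + 1) * (1 + (f y : ℤ)) + (1 + (f y : ℤ)) := by ring
      rw [e]
      omega

theorem phi_change {H : List ℕ} {T T' : Tr} {s : ℕ}
    (h : Change H T T' s) : ∀ (S : Tr), IsBST T → keys S = keys T → Inv H S →
    (∀ x ∈ H, x ∈ keys T) →
    (∀ x H', H = x :: H' → ∃ l r, S = node x l r) →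
    keys T' = keys T ∧
      Phi (size T) (fun j => dep j T') S ≤
        Phi (size T) (fun j => dep j T) S + 3 * (s : ℤ) := by
  cases h with
  | side x H' T T' w hH hkT hc hw =>
    intro S hb hk _ _ hroot
    refine ⟨hkT, ?_⟩
    obtain ⟨l, r, hS⟩ := hroot x H' hH
    subst hS
    have hx : x ∈ keys T := by rw [← hk]; simp [keys]
    have hsz : size T' = size T := by rw [size_eq, size_eq, hkT]
    have := phi_side (M := size T) hb hk (fun j _ => dep_le_size j T)
      (fun j _ => by have := dep_le_size j T'; omega) hc hw (exists_root hx)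
    omega
  | lift n x H' fs t hH hx hc =>
    intro S hb hk hi _ hroot
    have hbt := plug_bst_sub hb
    obtain ⟨_, hkt⟩ := toRoot_spec x t hbt hx
    refine ⟨by rw [keys_plug, keys_plug, hkt], ?_⟩
    obtain ⟨l, r, hS⟩ := hroot x H' hH
    subst hS
    have h1 := phi_lift (x := x) (fs := fs) (t := t) (l := l) (r := r)
      (Q := (H.take n).toFinset) hb hx hk
      (by
        intro a l r ht
        obtain ⟨q1, q2⟩ := hc a l r ht
        rw [after_eq] at q1
        rw [before_eq] at q2
        exact ⟨fun h q hq => by simpa using q1 h q hq, fun h q hq => by simpa using q2 h q hq⟩)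
      (exists_root (x := x) (by rw [keys_plug]; simp [hx]))
    have h2 := inv_ancs' hi n
    have h3 : (ancs (H.take n).toFinset (node x l r) : ℤ) ≤
        2 * ((H.take n).toFinset.card : ℤ) := by exact_mod_cast h2
    linarith
  | move n y T hy =>
    intro S hb hk hi hH _
    have hyT : y ∈ keys T := hH y (List.mem_of_mem_take hy)
    obtain ⟨h1, h2⟩ := toRoot_spec y T hb hyT
    obtain ⟨h3, h4⟩ := toRoot_cmp y T hb hyT
    refine ⟨h2, ?_⟩
    have hsz : size (toRoot y T) = size T := by rw [size_eq, size_eq, h2]
    have hbS : IsBST S := by unfold IsBST; rw [hk]; exact hb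
    have hi' := inv_ancs hi hy
    have hd := dep_lt_ancs (E := (H.take n).toFinset) (x := y) (by simpa using hy) hbS
      (by rw [hk]; exact hyT)
    have := phi_move (M := size T) (y := y) (f := fun k => dep k T)
      (g := fun k => dep k (toRoot y T)) (K := keys T) h4 (fun k _ => dep_le_size k T)
      (fun k _ => by have := dep_le_size k (toRoot y T); omega) h3 S [] []
      (by
        have e0 : [] ++ keys S ++ [] = keys T := by simp [hk]
        rw [e0]; exact hb) (by simp [hk]) (by rw [hk]; exact hyT)
    have h5 : (dep y S + 1) * (1 + dep y T) ≤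
        3 * ((H.take n).toFinset.card * (1 + dep y T)) := by
      rw [← mul_assoc]
      exact Nat.mul_le_mul_right _ (by omega)
    have h6 : (((dep y S + 1) * (1 + dep y T) : ℕ) : ℤ) ≤
        3 * (((H.take n).toFinset.card * (1 + dep y T) : ℕ) : ℤ) := by exact_mod_cast h5
    exact this.trans (by linarith)
  | up n a b A B C fs ha hb' hp hq =>
    intro S hb hk hi _ _
    have hbt := plug_bst_sub hb
    have hkt : keys (node b A (node a B C)) = keys (node a (node b A B) C) := by simp [keys]
    refine ⟨by rw [keys_plug, keys_plug, hkt], ?_⟩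
    have hi' := inv_ancs hi ha
    have := phi_near (Q := (H.take n).toFinset) (Rot.right a b A B C) hb
      ⟨by rw [← before_eq]; simpa using hp, by rw [← after_eq]; simpa using hq⟩
      (hin_up (by simpa using ha) (by simpa using hb') hbt) hkt hk
    push_cast
    omega
  | down n a b A B C fs ha hb' hp hq =>
    intro S hb hk hi _ _
    have hbt := plug_bst_sub hb
    have hkt : keys (node a (node b A B) C) = keys (node b A (node a B C)) := by simp [keys]
    refine ⟨by rw [keys_plug, keys_plug, hkt], ?_⟩
    have hi' := inv_ancs hi ha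
    have hbt' : IsBST (node a (node b A B) C) := by unfold IsBST; rw [hkt]; exact hbt
    have := phi_near (Q := (H.take n).toFinset) (Rot.left a b A B C) hb
      ⟨by rw [← before_eq]; simpa using hp, by rw [← after_eq]; simpa using hq⟩
      (by
        intro u hu z hz huz hno
        rw [← hkt] at hu hz hno
        have := hin_up (a := a) (b := b) (A := A) (B := B) (C := C)
          (Q := (H.take n).toFinset) (by simpa using ha) (by simpa using hb') hbt'
          u hu z hz huz hno
        omega) hkt hk
    push_cast
    omega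
  | rot T T' s hR =>
    intro S hb hk _ _ _
    have h1 := phi_rots (Rots.step T T' T' s 0 hR (Rots.refl T')) S hb hk
    obtain ⟨e, h2⟩ := h1
    refine ⟨e, ?_⟩
    push_cast at h2
    omega

theorem phi_changes {H : List ℕ} {T T' : Tr} {w : ℕ}
    (h : Changes H T T' w) : ∀ (S : Tr), IsBST T → keys S = keys T → Inv H S →
    (∀ x ∈ H, x ∈ keys T) →
    (∀ x H', H = x :: H' → ∃ l r, S = node x l r) →
    keys T' = keys T ∧
      Phi (size T) (fun j => dep j T') S ≤
        Phi (size T) (fun j => dep j T) S + 3 * (w : ℤ) := by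
  induction h with
  | refl T => intro S _ _ _ _ _; simp
  | step T T' T'' s w hc _ ih =>
    intro S hb hk hi hH hroot
    obtain ⟨e, h1⟩ := phi_change hc S hb hk hi hH hroot
    have hb' : IsBST T' := by unfold IsBST; rw [e]; exact hb
    obtain ⟨e2, h2⟩ := ih S hb' (by rw [e]; exact hk) hi (by rw [e]; exact hH) hroot
    have hsz : size T' = size T := by rw [size_eq, size_eq, e]
    rw [hsz] at h2
    refine ⟨by rw [e2, e], ?_⟩
    push_cast
    linarith

theorem exec_pot {H : List ℕ} {T : Tr} {X : List ℕ} {c : ℕ}
    (h : Exec H T X c) : ∀ (S : Tr), IsBST T → keys S = keys T → (∀ x ∈ X, x ∈ keys T) →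
    (∀ x ∈ H, x ∈ keys T) → Inv H S →
    (costSplay S X : ℤ) ≤ 6 * (c : ℤ) + 2 * Phi (size T) (fun j => dep j T) S := by
  induction h with
  | nil H T =>
    intro S hb hk _ _ _
    have hpos : ∀ (M : ℕ) (f : ℕ → ℕ) (t : Tr), 0 ≤ Phi M f t := by
      intro M f t
      induction t with
      | nil => simp [Phi]
      | node a l r ihl ihr =>
        simp only [Phi, mn]
        have : min (f a) (min (mn M f l) (mn M f r)) ≤ f a := by omega
        have : ((min (f a) (min (mn M f l) (mn M f r)) : ℕ) : ℤ) ≤ (f a : ℤ) := by
          exact_mod_cast this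
        linarith
    have := hpos (size T) (fun k => dep k T) S
    simp only [costSplay]
    push_cast
    linarith
  | cons H T T' x X w c hC _ ih =>
    intro S hb hk hX hH hi
    have hx : x ∈ keys T := hX x (by simp)
    have hbS : IsBST S := by unfold IsBST; rw [hk]; exact hb
    have hxS : x ∈ keys S := by rw [hk]; exact hx
    obtain ⟨a1, a2⟩ := access (M := size T) (f := fun k => dep k T) (x := x) (t := S) hbS hxS
      (by rw [hk]; exact good_dep T hb) (fun k _ => dep_le_size k T)
    have hk1' : keys (splay x S) = keys T := by rw [a1, hk]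
    have hi' : Inv (x :: H) (splay x S) := inv_cons hbS hxS hi
    have hH' : ∀ y ∈ x :: H, y ∈ keys T := by
      intro y hy
      rcases List.mem_cons.1 hy with h | h
      · rw [h]; exact hx
      · exact hH y h
    obtain ⟨c1, c2⟩ := phi_changes hC (splay x S) hb hk1' hi' hH' (by
      intro y H' he
      obtain ⟨l, r, hlr⟩ := splay_root x S
      have : y = x := by simp at he; exact he.1.symm
      subst this
      exact ⟨l, r, hlr⟩)
    have hb' : IsBST T' := by unfold IsBST; rw [c1]; exact hb
    have hs2 : size T' = size T := by rw [size_eq, size_eq, c1]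
    have hrec := ih (splay x S) hb' (by rw [c1]; exact hk1')
      (fun y hy => by rw [c1]; exact hX y (by simp [hy])) (by rw [c1]; exact hH') hi'
    rw [hs2] at hrec
    have hm : (0 : ℤ) ≤ (mn (size T) (fun k => dep k T) S : ℤ) := by positivity
    simp only [costSplay]
    push_cast
    linarith

/-- the comparison theorem -/
theorem splay_le_exec {T : Tr} {X : List ℕ} {c : ℕ} (hb : IsBST T)
    (hX : ∀ x ∈ X, x ∈ keys T) (h : Exec [] T X c) : costSplay T X ≤ 6 * c := by
  have h1 := exec_pot h T hb rfl hX (by simp) (inv_nil T)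
  rw [phi_self_zero T hb (le_refl _)] at h1
  have h2 : (costSplay T X : ℤ) ≤ ((6 * c : ℕ) : ℤ) := by
    push_cast
    linarith
  exact_mod_cast h2

/-- moving the requested key to the root is a one-sided contraction -/
theorem toRoot_change (x : ℕ) (H : List ℕ) (T : Tr) (hb : IsBST T) (hx : x ∈ keys T) :
    Change (x :: H) T (toRoot x T) 0 := by
  obtain ⟨h1, h2⟩ := toRoot_spec x T hb hx
  obtain ⟨_, h3⟩ := toRoot_cmp x T hb hx
  refine Change.side x H T (toRoot x T) 0 rfl h2 ?_ ?_
  · intro u hu z hz hs hB
    exact h3 u hu z hz hs (below_dom hB hb)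
  · obtain ⟨l, r, h⟩ := h1
    rw [h, dep_a]; omega

end Pool.Agent.TH22.SP
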