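import Pool.Agent.TH22.SP.Clos

set_option autoImplicit false

/-! The potential of the start library under rotations near recently requested keys. -/

namespace Pool.Agent.TH22.SP

open Pool.Agent.H581R2.Splay Tr

/-- the least level shifts with the levels -/
theorem mn_shift {M : ℕ} {f g : ℕ → ℕ} {t : Tr} (hne : t ≠ nil) (hfM : ∀ k ∈ keys t, f k ≤ M)
    (hgM : ∀ k ∈ keys t, g k ≤ M)
    (h : ∀ u ∈ keys t, ∀ z ∈ keys t, g u + f z = g z + f u) {a : ℕ} (ha : a ∈ keys t) :
    g a + mn M f t = f a + mn M g t := by
  obtain ⟨u, hu, eu⟩ := mn_att (M := M) (f := f) hfM hne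
  obtain ⟨v, hv, ev⟩ := mn_att (M := M) (f := g) hgM hne
  have h1 := h a ha u hu
  have h2 := h a ha v hv
  have h3 : mn M f t ≤ f v := mn_le_key hv
  have h4 : mn M g t ≤ g u := mn_le_key hu
  omega

/-- the potential when the levels change by at most one and the shift is constant between two
consecutive keys of `Q` -/
theorem phi_sep {M : ℕ} {f g : ℕ → ℕ} {K : List ℕ} {Q : Finset ℕ} (hfM : ∀ k ∈ K, f k ≤ M)
    (hgM : ∀ k ∈ K, g k ≤ M)
    (hsep : ∀ u ∈ K, ∀ z ∈ K, u ≤ z → (∀ q ∈ Q, q ∈ K → ¬ (u ≤ q ∧ q ≤ z)) →
      g u + f z = g z + f u)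
    (h4 : ∀ k ∈ K, g k ≤ f k + 1 ∧ f k ≤ g k + 1) :
    ∀ (t : Tr) (A C : List ℕ), (A ++ keys t ++ C).Pairwise (· < ·) → A ++ keys t ++ C = K →
      Phi M g t ≤ Phi M f t + 2 * (ancs Q t : ℤ) := by
  intro t
  induction t with
  | nil => intro A C _ _; simp [Phi, ancs]
  | node a l r ihl ihr =>
    intro A C hs hK
    have hl := ihl A (a :: keys r ++ C)
      (by simp only [keys] at hs; simpa [List.append_assoc] using hs)
      (by rw [← hK]; simp [keys])
    have hr := ihr (A ++ keys l ++ [a]) C
      (by simp only [keys] at hs; simpa [List.append_assoc] using hs)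
      (by rw [← hK]; simp [keys])
    have hin : ∀ k ∈ keys (node a l r), k ∈ K := by
      intro k hk; rw [← hK]; simp [hk]
    have hbetween : ∀ k ∈ K, ∀ u ∈ keys (node a l r), ∀ z ∈ keys (node a l r),
        (u ≤ k ∧ k ≤ z) → k ∈ keys (node a l r) := by
      intro k hk u hu z hz hb
      rw [← hK] at hk
      rw [List.pairwise_append, List.pairwise_append] at hs
      obtain ⟨⟨_, _, hAB⟩, _, hC⟩ := hs
      rw [List.mem_append, List.mem_append] at hk
      rcases hk with (hk | hk) | hk
      · have q1 := hAB k hk u hu
        omega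
      · exact hk
      · have q2 := hC z (List.mem_append.2 (Or.inr hz)) k hk
        omega
    have haK := h4 a (hin a (by simp [keys]))
    by_cases hm : Meets Q (node a l r)
    · rw [ancs_of_meets hm]
      have hmn : mn M f (node a l r) ≤ mn M g (node a l r) + 1 := by
        have h0 : mn M f (node a l r) - 1 ≤ mn M g (node a l r) := by
          refine mn_ge _ (fun k hk => ?_) ?_
          · have := (h4 k (hin k hk)).2
            have := mn_le_key (M := M) (f := f) hk
            omega
          · have := mn_le_M (M := M) (f := f) (node a l r); omega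
        omega
      simp only [Phi]
      push_cast
      omega
    · have hno : ∀ q ∈ Q, q ∉ keys (node a l r) := fun q hq hk => hm ⟨q, hk, hq⟩
      have hpair : ∀ u ∈ keys (node a l r), ∀ z ∈ keys (node a l r), g u + f z = g z + f u := by
        intro u hu z hz
        rcases le_total u z with h | h
        · exact hsep u (hin u hu) z (hin z hz) h (fun q hq hqK hb =>
            hno q hq (hbetween q hqK u hu z hz hb))
        · have := hsep z (hin z hz) u (hin u hu) h (fun q hq hqK hb =>
            hno q hq (hbetween q hqK z hz u hu hb))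
          omega
      have hsh := mn_shift (M := M) (f := f) (g := g) (t := node a l r) (by simp)
        (fun k hk => hfM k (hin k hk)) (fun k hk => hgM k (hin k hk)) hpair (a := a)
        (by simp [keys])
      have h0 : ancs Q l + ancs Q r ≤ ancs Q (node a l r) := le_ancs Q a l r
      simp only [Phi]
      push_cast
      omega

/-! Depths in a tree built from a path. -/

theorem dep_plug_in {x : ℕ} : ∀ (fs : List Fr) (t : Tr), IsBST (plug fs t) → x ∈ keys t →
    dep x (plug fs t) = dep x t + fs.length := by
  intro fs
  induction fs with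
  | nil => intro t _ _; simp [plug]
  | cons f fs ih =>
    intro t hb hx
    simp only [plug] at hb ⊢
    rw [ih (plug1 f t) hb (by cases f <;> simp [plug1, keys, hx])]
    have hb2 : IsBST (plug1 f t) := by
      have : (keys (plug fs (plug1 f t))).Pairwise (· < ·) := hb
      rw [keys_plug] at this
      exact (List.pairwise_append.1 (List.pairwise_append.1 this).1).2.1
    cases f with
    | inL a r =>
      obtain ⟨_, _, g3, _⟩ := bst_node (show IsBST (node a t r) from hb2)
      show dep x (node a t r) + fs.length = _
      rw [dep_l (g3 x hx)]; simp only [List.length_cons]; omega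
    | inR a l =>
      obtain ⟨_, _, _, g4⟩ := bst_node (show IsBST (node a l t) from hb2)
      show dep x (node a l t) + fs.length = _
      rw [dep_r (g4 x hx)]; simp only [List.length_cons]; omega

theorem dep_plug_out {x : ℕ} : ∀ (fs : List Fr) (t t' : Tr), IsBST (plug fs t) →
    keys t' = keys t → x ∈ keys (plug fs t) → x ∉ keys t →
    dep x (plug fs t') = dep x (plug fs t) := by
  intro fs
  induction fs with
  | nil => intro t t' _ _ hx hn; exact absurd hx hn
  | cons f fs ih =>
    intro t t' hb hk hx hn
    simp only [plug] at hb hx ⊢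
    have hk1 : keys (plug1 f t') = keys (plug1 f t) := by cases f <;> simp [plug1, keys, hk]
    have hb2 : IsBST (plug1 f t) := by
      have : (keys (plug fs (plug1 f t))).Pairwise (· < ·) := hb
      rw [keys_plug] at this
      exact (List.pairwise_append.1 (List.pairwise_append.1 this).1).2.1
    by_cases h1 : x ∈ keys (plug1 f t)
    · have hb' : IsBST (plug fs (plug1 f t')) := by
        unfold IsBST
        rw [keys_plug, hk1, ← keys_plug]
        exact hb
      rw [dep_plug_in fs (plug1 f t) hb h1, dep_plug_in fs (plug1 f t') hb' (by rw [hk1]; exact h1)]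
      have hd : dep x (plug1 f t') = dep x (plug1 f t) := by
        cases f with
        | inL a r =>
          obtain ⟨_, _, g3, g4⟩ := bst_node (show IsBST (node a t r) from hb2)
          have h1' : x ∈ keys t ++ a :: keys r := h1
          simp only [List.mem_append, List.mem_cons] at h1'
          rcases h1' with h | h | h
          · exact absurd h hn
          · subst h; show dep x (node x t' r) = dep x (node x t r); rw [dep_a, dep_a]
          · show dep x (node a t' r) = dep x (node a t r)
            rw [dep_r (g4 x h), dep_r (g4 x h)]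
        | inR a l =>
          obtain ⟨_, _, g3, g4⟩ := bst_node (show IsBST (node a l t) from hb2)
          have h1' : x ∈ keys l ++ a :: keys t := h1
          simp only [List.mem_append, List.mem_cons] at h1'
          rcases h1' with h | h | h
          · show dep x (node a l t') = dep x (node a l t)
            rw [dep_l (g3 x h), dep_l (g3 x h)]
          · subst h; show dep x (node x l t') = dep x (node x l t); rw [dep_a, dep_a]
          · exact absurd h hn
      rw [hd]
    · exact ih _ _ hb hk1 hx h1

/-- the last key before and the first key after the subtree at the end of the path -/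
def Sep (Q : Finset ℕ) (fs : List Fr) : Prop :=
  (∀ q, (pre fs).getLast? = some q → q ∈ Q) ∧ (∀ q, (post fs).head? = some q → q ∈ Q)

theorem le_getLast : ∀ (l : List ℕ), l.Pairwise (· < ·) → ∀ u ∈ l,
    ∃ q, l.getLast? = some q ∧ u ≤ q ∧ q ∈ l := by
  intro l hl u hu
  have hne : l ≠ [] := by rintro rfl; simp at hu
  refine ⟨l.getLast hne, List.getLast?_eq_some_getLast hne, ?_, List.getLast_mem hne⟩
  have := List.dropLast_append_getLast hne
  rw [← this] at hl hu
  rw [List.pairwise_append] at hl
  rw [List.mem_append] at hu
  rcases hu with hu | hu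
  · exact le_of_lt (hl.2.2 u hu _ (by simp))
  · simp at hu; omega

theorem head_le : ∀ (l : List ℕ), l.Pairwise (· < ·) → ∀ u ∈ l,
    ∃ q, l.head? = some q ∧ q ≤ u ∧ q ∈ l := by
  intro l hl u hu
  rcases l with _ | ⟨a, l⟩
  · simp at hu
  · refine ⟨a, rfl, ?_, by simp⟩
    rw [List.pairwise_cons] at hl
    rcases List.mem_cons.1 hu with h | h
    · omega
    · exact le_of_lt (hl.1 u h)

/-- the shift of the depths under a change of a subtree whose own shift is constant between the
keys of `Q` -/
theorem sep_plug {Q : Finset ℕ} {fs : List Fr} {t t' : Tr} (hb : IsBST (plug fs t))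
    (hk : keys t' = keys t) (hQ : Sep Q fs)
    (hin : ∀ u ∈ keys t, ∀ z ∈ keys t, u ≤ z → (∀ q ∈ Q, q ∈ keys t → ¬ (u ≤ q ∧ q ≤ z)) →
      dep u t' + dep z t = dep z t' + dep u t) :
    ∀ u ∈ keys (plug fs t), ∀ z ∈ keys (plug fs t), u ≤ z →
      (∀ q ∈ Q, q ∈ keys (plug fs t) → ¬ (u ≤ q ∧ q ≤ z)) →
      dep u (plug fs t') + dep z (plug fs t) = dep z (plug fs t') + dep u (plug fs t) := by
  intro u hu z hz huz hno
  have hb' : IsBST (plug fs t') := by
    unfold IsBST
    rw [keys_plug, hk, ← keys_plug]
    exact hb
  have hs : (pre fs ++ keys t ++ post fs).Pairwise (· < ·) := by rw [← keys_plug]; exact hb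
  have hs' := hs
  rw [List.pairwise_append, List.pairwise_append] at hs'
  obtain ⟨⟨hpre, hmid, hAB⟩, hpost, hC⟩ := hs'
  by_cases h1 : u ∈ keys t
  · by_cases h2 : z ∈ keys t
    · rw [dep_plug_in fs t hb h1, dep_plug_in fs t hb h2,
        dep_plug_in fs t' hb' (by rw [hk]; exact h1), dep_plug_in fs t' hb' (by rw [hk]; exact h2)]
      have := hin u h1 z h2 huz (fun q hq hqt => hno q hq (by rw [keys_plug]; simp [hqt]))
      omega
    · -- z is after the subtree
      exfalso
      have hz' := hz
      rw [keys_plug, List.mem_append, List.mem_append] at hz'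
      rcases hz' with (h | h) | h
      · have := hAB z h u h1; omega
      · exact h2 h
      · obtain ⟨q, hq1, hq2, hq3⟩ := head_le _ hpost z h
        have h5 := hC u (by simp [h1]) q hq3
        exact hno q (hQ.2 q hq1) (by rw [keys_plug]; simp [hq3]) ⟨by omega, hq2⟩
  · by_cases h2 : z ∈ keys t
    · exfalso
      have hu' := hu
      rw [keys_plug, List.mem_append, List.mem_append] at hu'
      rcases hu' with (h | h) | h
      · obtain ⟨q, hq1, hq2, hq3⟩ := le_getLast _ hpre u h
        have h5 := hAB q hq3 z h2
        exact hno q (hQ.1 q hq1) (by rw [keys_plug]; simp [hq3]) ⟨hq2, by omega⟩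
      · exact h1 h
      · have := hC z (by simp [h2]) u h; omega
    · rw [dep_plug_out fs t t' hb hk hu h1, dep_plug_out fs t t' hb hk hz h2]
      omega

end Pool.Agent.TH22.SP
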